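import Pool.Agent.BR.Final

/-!
# MP_70674c_lc, Q2: for every n ≥ 2, diffeomorphism of connected smooth n-manifolds with boundary
is Borel reducible to diffeomorphism of connected smooth n-manifolds without boundary

All definitions are in `Pool/Agent/Helper73/BR/Core.lean`. The dimension is `n = m + 2`.
-/

namespace Pool.Agent.Results.MP_70674c_lc.BoundaryReduction

open Pool.Agent.Helper73.BR

theorem result (m : ℕ) :
    BorelRed (fun p q : ParC (HS m) => Diffeo p.1 q.1)
      (fun p q : ParC (Set.univ : Set (E m)) => Diffeo p.1 q.1) :=
  boundary_reduction m

end Pool.Agent.Results.MP_70674c_lc.BoundaryReduction
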